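import Mathlib
import Pool.Agent.N772.BL.Comp

/-!
# Boyd's conjecture for integer polynomials that are sparse in blocks

`blockMeasures κ` is the set of the Mahler measures `M(f)` of the integer polynomials
`f = ∑ A_s X ^ s` in one variable with at most `r + 1 ≤ κ(M(f)) + 1` blocks `A_s`, of degree at most
`D`, where the distance of any two of the exponents `s` is at least
`128 (2 ^ r D)² (1 + log (4 · 2 ^ r D))` and the blocks have no common zero outside the closed unit
disc.  The degree bound `D` and the coefficients are arbitrary.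

`L K` is the set of the Mahler measures of the nonzero integer polynomials `F` (in any number of
variables) having a coprime companion `G` with `∫ log max(|F|, |G|) ≤ K`; a set `T` of reals has
bounded companions if for every `B` some `L K` contains all elements of `T` below `B`.

For every monotone function `κ` the multiplicative monoid generated by `blockMeasures κ` and by any
set `T` with bounded companions has bounded companions.  Hence its closure consists of Mahler
measures, it has a gap above `1`, and below every bound it has finite Cantor-Bendixson rank.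
-/

set_option autoImplicit false

namespace Pool.Agent.Results.MP_6d22ea_nt.BlockCompanions

open Polynomial

noncomputable section

/-- Value of an integer polynomial in `k` variables at the torus point
`(exp (2 π i t_1), …, exp (2 π i t_k))`. -/
def value {k : ℕ} (F : MvPolynomial (Fin k) ℤ) (t : Fin k → ℝ) : ℂ :=
  MvPolynomial.eval (fun j : Fin k => Complex.exp (2 * (Real.pi : ℂ) * Complex.I * ((t j : ℝ) : ℂ)))
    (MvPolynomial.map (Int.castRingHom ℂ) F)

/-- The Mahler measure of an integer polynomial in `k` variables. -/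
def mahler {k : ℕ} (F : MvPolynomial (Fin k) ℤ) : ℝ :=
  Real.exp (∫ t in Set.Icc (0 : Fin k → ℝ) 1, Real.log ‖value F t‖)

/-- The integral of `log max(|F|, |G|)` over the torus. -/
def pairHeight {k : ℕ} (F G : MvPolynomial (Fin k) ℤ) : ℝ :=
  ∫ t in Set.Icc (0 : Fin k → ℝ) 1, Real.log (max ‖value F t‖ ‖value G t‖)

/-- The set of the Mahler measures of the nonzero integer polynomials in any number of variables. -/
def allMeasures : Set ℝ :=
  {x : ℝ | ∃ k : ℕ, 1 ≤ k ∧ ∃ F : MvPolynomial (Fin k) ℤ, F ≠ 0 ∧ x = mahler F}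

/-- The Mahler measures of the nonzero polynomials `F` having a coprime companion `G ≠ 0` with
`∫ log max(|F|, |G|) ≤ K`. -/
def L (K : ℝ) : Set ℝ :=
  {x : ℝ | ∃ k : ℕ, 1 ≤ k ∧ ∃ F G : MvPolynomial (Fin k) ℤ, F ≠ 0 ∧ G ≠ 0 ∧ IsRelPrime F G ∧
    pairHeight F G ≤ K ∧ x = mahler F}

/-- For every `B` some `L K` contains all elements of `T` below `B`. -/
def BoundedCompanions (T : Set ℝ) : Prop := ∀ B : ℝ, ∃ K : ℝ, T ∩ Set.Iio B ⊆ L K

/-- `128 D² (1 + log (4 D))` -/
def gapLength (D : ℕ) : ℝ := 128 * (D : ℝ) ^ 2 * (1 + Real.log (4 * D))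

/-- the polynomial with the blocks `A s` at `X ^ s` for `s` in `S` -/
def blockSum (S : Finset ℕ) (A : ℕ → ℤ[X]) : ℤ[X] := ∑ s ∈ S, A s * X ^ s

/-- The Mahler measures `x` of the integer polynomials with at most `r + 1` blocks of degree at most
`D`, where `r ≤ κ x`, with gaps of length at least `gapLength (2 ^ r * D)`, the blocks having no
common zero outside the closed unit disc. -/
def blockMeasures (κ : ℝ → ℕ) : Set ℝ :=
  {x : ℝ | ∃ (r D : ℕ) (S : Finset ℕ) (A : ℕ → ℤ[X]),
    r ≤ κ x ∧ S.card ≤ r + 1 ∧ (∀ s ∈ S, (A s).natDegree ≤ D) ∧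
    (∀ s ∈ S, ∀ t ∈ S, s ≠ t → gapLength (2 ^ r * D) ≤ |(s : ℝ) - t|) ∧
    (∀ z : ℂ, 1 < ‖z‖ → ∃ s ∈ S, aeval z (A s) ≠ 0) ∧
    x = ((blockSum S A).map (Int.castRingHom ℂ)).mahlerMeasure}

theorem result (κ : ℝ → ℕ) (hκ : Monotone κ) (T : Set ℝ) (hT : BoundedCompanions T) :
    BoundedCompanions (Submonoid.closure (T ∪ blockMeasures κ) : Submonoid ℝ) ∧
      closure ((Submonoid.closure (T ∪ blockMeasures κ) : Submonoid ℝ) : Set ℝ) ⊆ allMeasures ∧
      (∃ δ : ℝ, 1 < δ ∧ ∀ x ∈ (Submonoid.closure (T ∪ blockMeasures κ) : Submonoid ℝ),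
        x = 1 ∨ δ ≤ x) ∧
      ∀ B : ℝ, ∃ m : ℕ, ∀ x ∈ derivedSet^[m]
        ((Submonoid.closure (T ∪ blockMeasures κ) : Submonoid ℝ) : Set ℝ), B ≤ x := by
  have hB : Pool.Agent.TH845.KN.BC (blockMeasures κ) := Pool.Agent.N772.BL.BC_TBL hκ
  have h1 : Pool.Agent.TH845.KN.BC
      ((Submonoid.closure (T ∪ blockMeasures κ) : Submonoid ℝ) : Set ℝ) :=
    Pool.Agent.TH845.KN.BC_monoid (Pool.Agent.TH845.KN.BC.union hT hB)
  obtain ⟨h2, h3⟩ := Pool.Agent.W242.IM.closure_of_LL _ h1
  exact ⟨h1, h2, Pool.Agent.TH845.KN.gap_BC h1, h3⟩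

end

end Pool.Agent.Results.MP_6d22ea_nt.BlockCompanions
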