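import Mathlib
import Pool.Agent.N317.LS.Main

/-!
# Boyd's conjecture for integer polynomials `X ^ N A + B` with a long shift

`shiftMeasures κ` is the set of the Mahler measures `x = M(X ^ N A + B)`, where `A ≠ 0` and `B` are
integer polynomials in one variable without common zeros outside the closed unit disc, with
`|B| ≤ H |A|` on the unit circle for some `1 ≤ H ≤ κ(x)`, and where the length
`g = N + deg A - deg B` (or any smaller positive integer `g`) satisfies `g ≥ 250 k (k + log H)`, `k`
being the number of zeros of `A` outside the closed unit disc.  The degrees and the coefficients are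
arbitrary.  With `B = ± A^*` (and `H = 1`) this is Salem's construction.

`L K` is the set of the Mahler measures of the nonzero integer polynomials `F` (in any number of
variables) having a coprime companion `G` with `∫ log max(|F|, |G|) ≤ K`; a set `T` of reals has
bounded companions if for every `B` some `L K` contains all elements of `T` below `B`.

For every monotone function `κ` the multiplicative monoid generated by `shiftMeasures κ` and by any
set `T` with bounded companions has bounded companions.  Hence its closure consists of Mahler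
measures, it has a gap above `1`, and below every bound it has finite Cantor-Bendixson rank.
-/

set_option autoImplicit false

namespace Pool.Agent.Results.MP_6d22ea_nt.LongShiftCompanions

open Polynomial

noncomputable section

/-- Value of an integer polynomial in `k` variables at the torus point
`(exp (2 π i t_1), …, exp (2 π i t_k))`. -/
def value {k : ℕ} (F : MvPolynomial (Fin k) ℤ) (t : Fin k → ℝ) : ℂ :=
  MvPolynomial.eval (fun j : Fin k => Complex.exp (2 * (Real.pi : ℂ) * Complex.I * ((t j : ℝ) : ℂ)))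
    (MvPolynomial.map (Int.castRingHom ℂ) F)

/-- The Mahler measure of an integer polynomial in `k` variables. -/
def mahler {k : ℕ} (F : MvPolynomial (Fin k) ℤ) : ℝ :=
  Real.exp (∫ t in Set.Icc (0 : Fin k → ℝ) 1, Real.log ‖value F t‖)

/-- The integral of `log max(|F|, |G|)` over the torus. -/
def pairHeight {k : ℕ} (F G : MvPolynomial (Fin k) ℤ) : ℝ :=
  ∫ t in Set.Icc (0 : Fin k → ℝ) 1, Real.log (max ‖value F t‖ ‖value G t‖)

/-- The set of the Mahler measures of the nonzero integer polynomials in any number of variables. -/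
def allMeasures : Set ℝ :=
  {x : ℝ | ∃ k : ℕ, 1 ≤ k ∧ ∃ F : MvPolynomial (Fin k) ℤ, F ≠ 0 ∧ x = mahler F}

/-- The Mahler measures of the nonzero polynomials `F` having a coprime companion `G ≠ 0` with
`∫ log max(|F|, |G|) ≤ K`. -/
def L (K : ℝ) : Set ℝ :=
  {x : ℝ | ∃ k : ℕ, 1 ≤ k ∧ ∃ F G : MvPolynomial (Fin k) ℤ, F ≠ 0 ∧ G ≠ 0 ∧ IsRelPrime F G ∧
    pairHeight F G ≤ K ∧ x = mahler F}

/-- For every `B` some `L K` contains all elements of `T` below `B`. -/
def BoundedCompanions (T : Set ℝ) : Prop := ∀ B : ℝ, ∃ K : ℝ, T ∩ Set.Iio B ⊆ L K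

open Classical in
/-- the number of complex zeros of `A` of modulus greater than one, with multiplicity -/
def outerZeros (A : ℤ[X]) : ℕ :=
  ((A.map (Int.castRingHom ℂ)).roots.filter fun z => 1 < ‖z‖).card

/-- The Mahler measures `x` of the polynomials `X ^ N A + B` with `A`, `B` integer polynomials
without common zeros outside the closed unit disc, with `|B| ≤ H |A|` on the unit circle for some
`1 ≤ H ≤ κ x`, and with a gap of length at least `g ≥ 250 k (k + log H)` between `B` and the leading
term, `k` being the number of outer zeros of `A`. -/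
def shiftMeasures (κ : ℝ → ℝ) : Set ℝ :=
  {x : ℝ | ∃ (A B : ℤ[X]) (N g : ℕ) (H : ℝ),
    A ≠ 0 ∧ 1 ≤ g ∧ 1 ≤ H ∧ H ≤ κ x ∧ B.natDegree + g ≤ N + A.natDegree ∧
    (∀ z : ℂ, ‖z‖ = 1 → ‖aeval z B‖ ≤ H * ‖aeval z A‖) ∧
    250 * (outerZeros A : ℝ) * (outerZeros A + Real.log H) ≤ g ∧
    (∀ z : ℂ, 1 < ‖z‖ → aeval z A ≠ 0 ∨ aeval z B ≠ 0) ∧
    x = ((X ^ N * A + B).map (Int.castRingHom ℂ)).mahlerMeasure}

theorem result (κ : ℝ → ℝ) (hκ : Monotone κ) (T : Set ℝ) (hT : BoundedCompanions T) :
    BoundedCompanions (Submonoid.closure (T ∪ shiftMeasures κ) : Submonoid ℝ) ∧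
      closure ((Submonoid.closure (T ∪ shiftMeasures κ) : Submonoid ℝ) : Set ℝ) ⊆ allMeasures ∧
      (∃ δ : ℝ, 1 < δ ∧ ∀ x ∈ (Submonoid.closure (T ∪ shiftMeasures κ) : Submonoid ℝ),
        x = 1 ∨ δ ≤ x) ∧
      ∀ B : ℝ, ∃ m : ℕ, ∀ x ∈ derivedSet^[m]
        ((Submonoid.closure (T ∪ shiftMeasures κ) : Submonoid ℝ) : Set ℝ), B ≤ x := by
  have hB : Pool.Agent.TH845.KN.BC (shiftMeasures κ) := Pool.Agent.N317.LS.BC_TLS hκ
  have h1 : Pool.Agent.TH845.KN.BC
      ((Submonoid.closure (T ∪ shiftMeasures κ) : Submonoid ℝ) : Set ℝ) :=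
    Pool.Agent.TH845.KN.BC_monoid (Pool.Agent.TH845.KN.BC.union hT hB)
  obtain ⟨h2, h3⟩ := Pool.Agent.W242.IM.closure_of_LL _ h1
  exact ⟨h1, h2, Pool.Agent.TH845.KN.gap_BC h1, h3⟩

end

end Pool.Agent.Results.MP_6d22ea_nt.LongShiftCompanions
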