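import Mathlib
import Pool.Agent.N639.SC.G
import Pool.Agent.N772.BL.Comp

/-!
# Boyd's conjecture for integer polynomials `X ^ N A + B` with a gap

`shiftMeasures κ` is the set of the Mahler measures `x = M(X ^ N A + B)`, where `A ≠ 0` and `B` are
integer polynomials in one variable without common zeros outside the closed unit disc, with
`|B| ≤ H |A|` on the unit circle for some `1 ≤ H ≤ κ(x)`, and where the gap
`g = N + deg A - deg B` (or any smaller positive integer `g`) satisfies one of two conditions, `k` being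
the number of zeros of `A` outside the closed unit disc: either `g ≥ k + 1` and `k ≤ κ(x)`, or
`g U ≥ 1 + log H + 24 k / 5` for some `0 < U < 1` with `((1 + U) / (1 - U)) ^ m ≤ κ(x)`, where `m` is
the number of zeros of `A` in the annulus `1 < |z| ≤ (1 + U) / (1 - U)`.  The degrees and the
coefficients are arbitrary, and `k` is not bounded in the second case.

This covers the gaps `g ≥ k + 1` for bounded `k` and `g ≥ max(12 (k + 1) (1 + log H), k ^ 2 / κ(x))` for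
all `k` (`quadraticShifts`), the gaps `g ≥ (ρ + 1) / (ρ - 1) (1 + log H + 24 k / 5)` for polynomials `A`
without zeros in `1 < |z| ≤ ρ` (`farShifts`), and Salem's construction `B = ± A^*` with `N ≥ k + 1`,
`k ≤ κ(x)` or with `N ≥ max(12 (k + 1), k ^ 2 / κ(x))` (`salemMeasures`); for example all Salem numbers
obtained by Salem's construction from Pisot numbers (`k = 1`) with `N ≥ 2`.

`L K` is the set of the Mahler measures of the nonzero integer polynomials `F` (in any number of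
variables) having a coprime companion `G` with `∫ log max(|F|, |G|) ≤ K`; a set `T` of reals has
bounded companions if for every `B` some `L K` contains all elements of `T` below `B`.

For every monotone function `κ` the multiplicative monoid generated by `shiftMeasures κ` and by any
set `T` with bounded companions has bounded companions.  Hence its closure consists of Mahler
measures, it has a gap above `1`, and below every bound it has finite Cantor-Bendixson rank.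
-/

set_option autoImplicit false

namespace Pool.Agent.Results.MP_6d22ea_nt.ShiftCompanions

open Polynomial

noncomputable section

/-- Value of an integer polynomial in `k` variables at the torus point
`(exp (2 π i t_1), …, exp (2 π i t_k))`. -/
def value {k : ℕ} (F : MvPolynomial (Fin k) ℤ) (t : Fin k → ℝ) : ℂ :=
  MvPolynomial.eval (fun j : Fin k => Complex.exp (2 * (Real.pi : ℂ) * Complex.I * ((t j : ℝ) : ℂ)))
    (MvPolynomial.map (Int.castRingHom ℂ) F)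

/-- The Mahler measure of an integer polynomial in `k` variables. -/
def mahler {k : ℕ} (F : MvPolynomial (Fin k) ℤ) : ℝ :=
  Real.exp (∫ t in Set.Icc (0 : Fin k → ℝ) 1, Real.log ‖value F t‖)

/-- The integral of `log max(|F|, |G|)` over the torus. -/
def pairHeight {k : ℕ} (F G : MvPolynomial (Fin k) ℤ) : ℝ :=
  ∫ t in Set.Icc (0 : Fin k → ℝ) 1, Real.log (max ‖value F t‖ ‖value G t‖)

/-- The set of the Mahler measures of the nonzero integer polynomials in any number of variables. -/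
def allMeasures : Set ℝ :=
  {x : ℝ | ∃ k : ℕ, 1 ≤ k ∧ ∃ F : MvPolynomial (Fin k) ℤ, F ≠ 0 ∧ x = mahler F}

/-- The Mahler measures of the nonzero polynomials `F` having a coprime companion `G ≠ 0` with
`∫ log max(|F|, |G|) ≤ K`. -/
def L (K : ℝ) : Set ℝ :=
  {x : ℝ | ∃ k : ℕ, 1 ≤ k ∧ ∃ F G : MvPolynomial (Fin k) ℤ, F ≠ 0 ∧ G ≠ 0 ∧ IsRelPrime F G ∧
    pairHeight F G ≤ K ∧ x = mahler F}

/-- For every `B` some `L K` contains all elements of `T` below `B`. -/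
def BoundedCompanions (T : Set ℝ) : Prop := ∀ B : ℝ, ∃ K : ℝ, T ∩ Set.Iio B ⊆ L K

open Classical in
/-- the number of complex zeros `z` of `A` with `1 < |z|`, with multiplicity -/
def outerZeros (A : ℤ[X]) : ℕ :=
  ((A.map (Int.castRingHom ℂ)).roots.filter fun z => 1 < ‖z‖).card

open Classical in
/-- the number of complex zeros `z` of `A` with `1 < |z| ≤ ρ`, with multiplicity -/
def annulusZeros (ρ : ℝ) (A : ℤ[X]) : ℕ :=
  ((A.map (Int.castRingHom ℂ)).roots.filter fun z => 1 < ‖z‖ ∧ ‖z‖ ≤ ρ).card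

/-- `x` is the Mahler measure of `X ^ N A + B`, where `A ≠ 0` and `B` are integer polynomials
without common zeros outside the closed unit disc, `|B| ≤ H |A|` on the unit circle, `H ≥ 1`, and
`B` ends at least `g ≥ 1` places below the leading term. -/
def IsShift (x : ℝ) (A B : ℤ[X]) (N g : ℕ) (H : ℝ) : Prop :=
  A ≠ 0 ∧ 1 ≤ g ∧ 1 ≤ H ∧ B.natDegree + g ≤ N + A.natDegree ∧
    (∀ z : ℂ, ‖z‖ = 1 → ‖aeval z B‖ ≤ H * ‖aeval z A‖) ∧
    (∀ z : ℂ, 1 < ‖z‖ → aeval z A ≠ 0 ∨ aeval z B ≠ 0) ∧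
    x = ((X ^ N * A + B).map (Int.castRingHom ℂ)).mahlerMeasure

/-- The measures `x` of the shifts with `H ≤ κ x` and either `g ≥ k + 1`, `k ≤ κ x` or
`g U ≥ 1 + log H + 24 k / 5` for some `0 < U < 1` with `((1 + U) / (1 - U)) ^ m ≤ κ x`, where `A` has
`k` outer zeros and `m` zeros in the annulus `1 < |z| ≤ (1 + U) / (1 - U)`. -/
def shiftMeasures (κ : ℝ → ℝ) : Set ℝ :=
  {x : ℝ | ∃ (A B : ℤ[X]) (N g : ℕ) (H : ℝ), IsShift x A B N g H ∧ H ≤ κ x ∧
    ((outerZeros A + 1 ≤ g ∧ (outerZeros A : ℝ) ≤ κ x) ∨ ∃ U : ℝ, 0 < U ∧ U < 1 ∧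
      1 + Real.log H + 24 / 5 * (outerZeros A : ℝ) ≤ g * U ∧
      ((1 + U) / (1 - U)) ^ annulusZeros ((1 + U) / (1 - U)) A ≤ κ x)}

/-- The measures `x` of the shifts with `H ≤ κ x` and either `g ≥ k + 1`, `k ≤ κ x` or
`g ≥ 12 (k + 1) (1 + log H)`, `g ≥ k ^ 2 / κ x`. -/
def quadraticShifts (κ : ℝ → ℝ) : Set ℝ :=
  {x : ℝ | ∃ (A B : ℤ[X]) (N g : ℕ) (H : ℝ), IsShift x A B N g H ∧ H ≤ κ x ∧
    ((outerZeros A + 1 ≤ g ∧ (outerZeros A : ℝ) ≤ κ x) ∨
      12 * ((outerZeros A : ℝ) + 1) * (1 + Real.log H) ≤ g ∧ (outerZeros A : ℝ) ^ 2 ≤ κ x * g)}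

/-- The measures `x` of the shifts with `H ≤ κ x` for which `A` has no zeros in the annulus
`1 < |z| ≤ ρ` and `g ≥ (ρ + 1) / (ρ - 1) (1 + log H + 24 k / 5)`. -/
def farShifts (κ : ℝ → ℝ) (ρ : ℝ) : Set ℝ :=
  {x : ℝ | ∃ (A B : ℤ[X]) (N g : ℕ) (H : ℝ), IsShift x A B N g H ∧ H ≤ κ x ∧
    (∀ z : ℂ, aeval z A = 0 → ‖z‖ ≤ 1 ∨ ρ < ‖z‖) ∧
    (ρ + 1) / (ρ - 1) * (1 + Real.log H + 24 / 5 * (outerZeros A : ℝ)) ≤ g}

/-- The measures `x` given by Salem's construction `X ^ N A ± A^*`, where `A` and `A^*` have no common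
outer zeros and either `N ≥ k + 1`, `k ≤ κ x` or `N ≥ 12 (k + 1)`, `N ≥ k ^ 2 / κ x`. -/
def salemMeasures (κ : ℝ → ℝ) : Set ℝ :=
  {x : ℝ | ∃ (A : ℤ[X]) (N : ℕ) (s : ℤ), A ≠ 0 ∧ (s = 1 ∨ s = -1) ∧ 1 ≤ N ∧
    ((outerZeros A + 1 ≤ N ∧ (outerZeros A : ℝ) ≤ κ x) ∨
      12 * ((outerZeros A : ℝ) + 1) ≤ N ∧ (outerZeros A : ℝ) ^ 2 ≤ κ x * N) ∧
    (∀ z : ℂ, 1 < ‖z‖ → aeval z A ≠ 0 ∨ aeval z A.reverse ≠ 0) ∧
    x = ((X ^ N * A + Polynomial.C s * A.reverse).map (Int.castRingHom ℂ)).mahlerMeasure}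

theorem result (κ : ℝ → ℝ) (hκ : Monotone κ) :
    (∀ T : Set ℝ, BoundedCompanions T →
      BoundedCompanions (Submonoid.closure (T ∪ shiftMeasures κ) : Submonoid ℝ) ∧
      closure ((Submonoid.closure (T ∪ shiftMeasures κ) : Submonoid ℝ) : Set ℝ) ⊆ allMeasures ∧
      (∃ δ : ℝ, 1 < δ ∧ ∀ x ∈ (Submonoid.closure (T ∪ shiftMeasures κ) : Submonoid ℝ),
        x = 1 ∨ δ ≤ x) ∧
      ∀ B : ℝ, ∃ m : ℕ, ∀ x ∈ derivedSet^[m]
        ((Submonoid.closure (T ∪ shiftMeasures κ) : Submonoid ℝ) : Set ℝ), B ≤ x) ∧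
    ∃ κ' : ℝ → ℝ, Monotone κ' ∧ quadraticShifts κ ⊆ shiftMeasures κ' ∧
      (∀ ρ : ℝ, 1 < ρ → farShifts κ ρ ⊆ shiftMeasures κ') ∧ salemMeasures κ ⊆ shiftMeasures κ' := by
  have hsub : ∀ κ : ℝ → ℝ, shiftMeasures κ = Pool.Agent.N639.SC.TSH κ := by
    intro κ
    ext x
    constructor
    · rintro ⟨A, B, N, g, H, ⟨h1, h2, h3, h4, h5, h6, h7⟩, h8, h9⟩
      exact ⟨A, B, N, g, H, h1, h2, h3, h8, h4, h5, h9, h6, h7⟩
    · rintro ⟨A, B, N, g, H, h1, h2, h3, h8, h4, h5, h9, h6, h7⟩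
      exact ⟨A, B, N, g, H, ⟨h1, h2, h3, h4, h5, h6, h7⟩, h8, h9⟩
  refine ⟨?_, Pool.Agent.N639.SC.kap κ, Pool.Agent.N639.SC.kap_mono hκ, ?_, ?_, ?_⟩
  · intro T hT
    have hB : Pool.Agent.TH845.KN.BC (shiftMeasures κ) := by
      rw [hsub]
      exact Pool.Agent.N639.SC.BC_TSH hκ
    have h1 : Pool.Agent.TH845.KN.BC
        ((Submonoid.closure (T ∪ shiftMeasures κ) : Submonoid ℝ) : Set ℝ) :=
      Pool.Agent.TH845.KN.BC_monoid (Pool.Agent.TH845.KN.BC.union hT hB)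
    obtain ⟨h2, h3⟩ := Pool.Agent.W242.IM.closure_of_LL _ h1
    exact ⟨h1, h2, Pool.Agent.TH845.KN.gap_BC h1, h3⟩
  · rintro x ⟨A, B, N, g, H, ⟨h1, h2, h3, h4, h5, h6, h7⟩, h8, h9⟩
    rw [hsub]
    exact Pool.Agent.N639.SC.TQS_sub κ ⟨A, B, N, g, H, h1, h2, h3, h8, h4, h5, h9, h6, h7⟩
  · rintro ρ hρ x ⟨A, B, N, g, H, ⟨h1, h2, h3, h4, h5, h6, h7⟩, h8, h9, h10⟩
    rw [hsub]
    exact Pool.Agent.N639.SC.TLN_sub κ hρ ⟨A, B, N, g, H, h1, h3, h8, h4, h5, h9, h10, h6, h7⟩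
  · rintro x ⟨A, N, s, h1, h2, h3, h4, h5, h6⟩
    rw [hsub]
    have h7 := Pool.Agent.N639.SC.TQS_sub _
      (Pool.Agent.N639.SC.TSA_sub κ ⟨A, N, s, h1, h2, h3, h4, h5, h6⟩)
    have h8 : Pool.Agent.N639.SC.kap (fun x => max 1 (κ x)) = Pool.Agent.N639.SC.kap κ := by
      funext y
      unfold Pool.Agent.N639.SC.kap
      rw [← max_assoc, max_self]
    rw [h8] at h7
    exact h7

end

end Pool.Agent.Results.MP_6d22ea_nt.ShiftCompanions
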